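import Pool.Agent.Helper15.AF.Goals2

/-!
Project AF, packet WGD: most hash parameters are good for a small set.
-/

set_option autoImplicit false

namespace Pool.Agent.Helper86.AF

open Pool.Agent.Helper15.AF Pool.Agent.Helper78.DT
open scoped Classical

/-- Packet WGD. -/
theorem wgd : WgdStmt := by
  intro P e D n ρ μ a S hP hn hμ hS
  have hfin : S.Finite := Set.toFinite S
  -- injectivity
  have h1 : pr (fun w : Fin P => ¬ Set.InjOn (fun v : Fin n => hs P e w v) S) ≤
      (D : ℝ) ^ 2 * e / P := by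
    have h2 := inj P e D hP (Fin.val '' S) (by
      rintro _ ⟨v, _, rfl⟩
      exact lt_of_lt_of_le v.2 hn) (hfin.image _) ((Set.ncard_image_le hfin).trans hS)
    refine (pr_mono (fun w hw => ?_)).trans h2
    intro h3
    apply hw
    intro v hv v' hv' hvv
    exact Fin.ext (h3 ⟨v, hv, rfl⟩ ⟨v', hv', rfl⟩ hvv)
  -- the names outside of `VV`
  obtain ⟨s, hs1⟩ : ∃ s : Finset (Fin n), s = hfin.toFinset.filter (fun v => v ∉ VV P e D μ a) :=
    ⟨_, rfl⟩
  have h2 : pr (fun w : Fin P => ∃ v ∈ s, ∃ u : Fin P, TW P e D w a u ∧ hs P e w v = u) ≤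
      D * μ := by
    refine (pr_exists_le s _).trans ?_
    have h3 : ∀ v ∈ s, pr (fun w : Fin P => ∃ u : Fin P, TW P e D w a u ∧ hs P e w v = u) ≤ μ := by
      intro v hv
      rw [hs1, Finset.mem_filter] at hv
      by_contra h
      push Not at h
      exact hv.2 (Finset.mem_filter.2 ⟨Finset.mem_univ v, h⟩)
    refine (Finset.sum_le_sum h3).trans ?_
    rw [Finset.sum_const, nsmul_eq_mul]
    apply mul_le_mul_of_nonneg_right _ hμ
    have h4 : s.card ≤ D := by
      rw [hs1]
      refine (Finset.card_filter_le _ _).trans ?_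
      rw [← Set.ncard_eq_toFinset_card S hfin]
      exact hS
    exact_mod_cast h4
  refine le_trans (pr_le_add_of_imp (fun w hw => ?_)) (add_le_add h1 h2)
  by_cases hi : Set.InjOn (fun v : Fin n => hs P e w v) S
  · right
    by_contra h
    push Not at h
    apply hw
    refine ⟨hi, fun v hv hvV u hu => ?_⟩
    refine h v ?_ u hu
    rw [hs1, Finset.mem_filter, Set.Finite.mem_toFinset]
    exact ⟨hv, hvV⟩
  · left
    exact hi

end Pool.Agent.Helper86.AF
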