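import Mathlib
import Pool.Agent.Helper26.AF.Defs
import Pool.Agent.Helper26.AF.Goals

/-!
Project AF, packet ROT: existence of rotation systems.
-/

namespace Pool.Agent.Helper86.AF

open Pool.Agent.Helper26.AF

/-- For a map `f` on a finite type there is a permutation whose cycles are exactly the fibres. -/
theorem exists_fibre_perm {D V : Type} [Finite D] (f : D → V) :
    ∃ σ : Equiv.Perm D, (∀ d, f (σ d) = f d) ∧ ∀ d e, f d = f e → σ.SameCycle d e := by
  classical
  have : Fintype D := Fintype.ofFinite D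
  have H : ∀ v : V, ∃ τ : Equiv.Perm D,
      τ.IsCycleOn (Finset.univ.filter (fun d => f d = v) : Finset D) := by
    intro v
    obtain ⟨τ, h1, -⟩ := (Finset.univ.filter (fun d => f d = v) : Finset D).exists_cycleOn
    exact ⟨τ, h1⟩
  choose τ hτ using H
  have hm : ∀ v d, f (τ v d) = v ↔ f d = v := by
    intro v d
    have := (hτ v).apply_mem_iff (x := d)
    simpa using this
  have hmi : ∀ v d, f ((τ v).symm d) = v ↔ f d = v := by
    intro v d
    have := hm v ((τ v).symm d)
    rw [Equiv.apply_symm_apply] at this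
    exact this.symm
  let σ : Equiv.Perm D :=
    { toFun := fun d => τ (f d) d
      invFun := fun d => (τ (f d)).symm d
      left_inv := by
        intro d
        have h : f (τ (f d) d) = f d := (hm (f d) d).2 rfl
        show (τ (f (τ (f d) d))).symm (τ (f d) d) = d
        rw [h, Equiv.symm_apply_apply]
      right_inv := by
        intro d
        have h : f ((τ (f d)).symm d) = f d := (hmi (f d) d).2 rfl
        show τ (f ((τ (f d)).symm d)) ((τ (f d)).symm d) = d
        rw [h, Equiv.apply_symm_apply] }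
  have hσ : ∀ d, σ d = τ (f d) d := fun d => rfl
  refine ⟨σ, fun d => (hm (f d) d).2 rfl, ?_⟩
  intro d e hde
  have hc := (hτ (f d)).2 (x := d) (by simp) (y := e) (by simp [hde])
  obtain ⟨n, -, hn⟩ := hc.exists_pow_eq'
  have key : ∀ n : ℕ, (σ ^ n) d = (τ (f d) ^ n) d ∧ f ((τ (f d) ^ n) d) = f d := by
    intro n
    induction n with
    | zero => simp
    | succ n ih =>
      obtain ⟨h1, h2⟩ := ih
      rw [pow_succ', pow_succ', Equiv.Perm.mul_apply, Equiv.Perm.mul_apply, h1, hσ, h2]
      exact ⟨rfl, (hm _ _).2 h2⟩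
  refine ⟨(n : ℤ), ?_⟩
  rw [zpow_natCast, (key n).1, hn]

theorem goalROT : StmtROT := by
  intro V _ _ G
  classical
  obtain ⟨σ, h1, h2⟩ := exists_fibre_perm (fun d : G.Dart => d.fst)
  exact ⟨σ, ⟨h1, h2⟩⟩

end Pool.Agent.Helper86.AF
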